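import Pool.Agent.Helper13.TV.Fld
import Pool.Agent.Helper77.EL.Defs

/-!
# Block I2 of `Pool.Agent.Helper77.EL`: the Frobenius of an irreducible matrix
-/

set_option autoImplicit false

open Matrix Matrix.SpecialLinearGroup Pool.Agent.Helper81.OT Polynomial Module
open Pool.Agent.Helper13.TV

namespace Pool.Agent.Helper13.EL

variable {n : Type} [Fintype n] [DecidableEq n] {F : Type} [Field F]

/-- a matrix with irreducible characteristic polynomial has no invariant subspace -/
theorem inv_of_irr (x : Matrix n n F) (hx : Irreducible x.charpoly)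
    (W : Submodule F (n → F)) (hW : ∀ w ∈ W, x *ᵥ w ∈ W) : W = ⊥ ∨ W = ⊤ := by
  classical
  by_cases h0 : W = ⊥
  · exact Or.inl h0
  right
  by_contra h1
  have : Nontrivial W := (Submodule.nontrivial_iff_ne_bot).2 h0
  let f : (n → F) →ₗ[F] (n → F) := Matrix.toLin' x
  have hf : ∀ w, f w = x *ᵥ w := fun w => Matrix.toLin'_apply x w
  let g : Module.End F W := f.restrict (p := W) (q := W) (fun w hw => by rw [hf]; exact hW w hw)
  have hg : ∀ w : W, ((g w : W) : n → F) = f w := fun w => rfl
  have hp : ∀ (p : F[X]) (w : W), ((aeval g p w : W) : n → F) = aeval f p (w : n → F) := by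
    intro p w
    induction p using Polynomial.induction_on' with
    | add p q hp hq =>
      rw [map_add, map_add, LinearMap.add_apply, LinearMap.add_apply, Submodule.coe_add, hp, hq]
    | monomial k c =>
      rw [aeval_monomial, aeval_monomial]
      have h2 : ∀ k, (((g ^ k) w : W) : n → F) = (f ^ k) (w : n → F) := by
        intro k
        induction k with
        | zero => rfl
        | succ k ih =>
          rw [pow_succ', pow_succ', Module.End.mul_apply, Module.End.mul_apply, hg, ih]
      rw [Module.End.mul_apply, Module.End.mul_apply, Module.algebraMap_end_apply,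
        Module.algebraMap_end_apply, Submodule.coe_smul, h2]
  have h2 : aeval g x.charpoly = 0 := by
    refine LinearMap.ext fun w => Subtype.ext ?_
    rw [hp]
    have h3 : aeval f x.charpoly = 0 := by
      have h4 : f.charpoly = x.charpoly := Matrix.charpoly_toLin' x
      rw [← h4]
      exact LinearMap.aeval_self_charpoly f
    rw [h3]
    rfl
  have h3 : minpoly F g ∣ x.charpoly := minpoly.dvd F g h2
  have hint : IsIntegral F g := Algebra.IsIntegral.isIntegral g
  rcases hx.dvd_iff.1 h3 with h4 | h4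
  · exact minpoly.not_isUnit F g h4
  · have h5 := Polynomial.natDegree_eq_of_degree_eq (Polynomial.degree_eq_degree_of_associated h4)
    rw [Matrix.charpoly_natDegree_eq_dim] at h5
    have h6 : (minpoly F g).natDegree ≤ finrank F W := by
      have h7 := Polynomial.natDegree_le_of_dvd (LinearMap.minpoly_dvd_charpoly g)
        (LinearMap.charpoly_monic g).ne_zero
      rwa [LinearMap.charpoly_natDegree] at h7
    have h8 : finrank F W < finrank F (n → F) := Submodule.finrank_lt h1
    rw [Module.finrank_fintype_fun_eq_card] at h8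
    omega

/-- the Frobenius of the field of an irreducible matrix, corrected to determinant `1` -/
theorem exists_semi_all [Finite F] {E : Type} [Field E] [Algebra F E] [Finite E]
    (ρ : E →ₐ[F] Module.End F (n → F)) (φ : E ≃ₗ[F] (n → F))
    (hρ : ∀ a b, φ (a * b) = ρ a (φ b)) :
    ∃ s : Matrix n n F, s.det = 1 ∧
      ∀ e w, s *ᵥ (ρ e w) = ρ (e ^ Nat.card F) (s *ᵥ w) := by
  classical
  have := Fintype.ofFinite F
  obtain ⟨c, hc⟩ := FiniteField.norm_surjective F E ((-1) ^ (finrank F E + 1))
  let f : E →ₗ[F] E := LinearMap.mulLeft F c ∘ₗ (FiniteField.frobeniusAlgHom F E).toLinearMap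
  have hf : ∀ e, f e = c * e ^ Nat.card F := by
    intro e
    rw [Nat.card_eq_fintype_card]
    rfl
  let s : Matrix n n F := LinearMap.toMatrix' (φ.toLinearMap ∘ₗ f ∘ₗ φ.symm.toLinearMap)
  have hs : ∀ e, s *ᵥ φ e = φ (c * e ^ Nat.card F) := by
    intro e
    rw [← hf]
    simp [s]
  refine ⟨s, ?_, fun e w => ?_⟩
  · rw [LinearMap.det_toMatrix', LinearMap.det_conj, det_mul_frob, hc, ← mul_pow]
    simp
  · obtain ⟨b, rfl⟩ := φ.surjective w
    rw [← hρ, hs, hs, ← hρ, mul_pow]
    congr 1
    ring

/-- (I2) -/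
theorem exists_frob [Finite F] (x : SpecialLinearGroup n F) (hn : 1 ≤ Fintype.card n)
    (hx : Irreducible x.1.charpoly) :
    ∃ s : SpecialLinearGroup n F, s * x * s⁻¹ = x ^ Nat.card F := by
  classical
  have : Nonempty n := Fintype.card_pos_iff.1 (by omega)
  obtain ⟨I, hI, ρ, φ, hρ, e, he⟩ := exists_field_end (Matrix.toLin' x.1) (fun W hW =>
    inv_of_irr x.1 hx W (fun w hw => by
      have := hW w hw
      rwa [Matrix.toLin'_apply] at this))
  letI : Field (F[X] ⧸ I) := Ideal.Quotient.field I
  have : Finite (F[X] ⧸ I) := Finite.of_equiv _ φ.symm.toEquiv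
  obtain ⟨s, hs1, hs2⟩ := exists_semi_all ρ φ hρ
  let σ : SpecialLinearGroup n F := ⟨s, hs1⟩
  refine ⟨σ, ?_⟩
  rw [mul_inv_eq_iff_eq_mul]
  apply Subtype.ext
  change s * x.1 = (x ^ Nat.card F).1 * s
  rw [Matrix.SpecialLinearGroup.coe_pow]
  refine Matrix.ext_of_mulVec_single fun i => ?_
  rw [← Matrix.mulVec_mulVec, ← Matrix.mulVec_mulVec]
  have h1 : ∀ w, x.1 *ᵥ w = ρ e w := by
    intro w
    rw [he, Matrix.toLin'_apply]
  have h2 : ∀ (k : ℕ) (w : n → F), (x.1 ^ k) *ᵥ w = ρ (e ^ k) w := by
    intro k
    induction k with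
    | zero =>
      intro w
      rw [pow_zero, pow_zero, map_one, Matrix.one_mulVec]
      rfl
    | succ k ih =>
      intro w
      rw [pow_succ, pow_succ, map_mul, Module.End.mul_apply, ← Matrix.mulVec_mulVec, ih, h1]
  rw [h1, hs2, h2]

end Pool.Agent.Helper13.EL
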